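import Pool.Agent.H463R3.PSLn

/-!
# A finite skew brace with perfect additive group and almost simple, non-perfect
multiplicative group

Let `F` be the field with `11 ^ 6` elements, `S = PSL(56, F)` and let `T = C₂₈ ⋊ C₆` act on `S`,
the generator of `C₂₈` as conjugation by `diag(ω, 1, …, 1)` with `ω` of order `28`, the generator
of `C₆` as the Frobenius map.  No nontrivial element of `T` acts as an inner automorphism, so
`G = S ⋊ T` is almost simple and not perfect.  On the other hand `T ≅ (C₇ ⋊ C₃) × D₈`, and
`P = SL(3, 2)` (simple of order 168) has an exact factorisation into subgroups isomorphic to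
`C₇ ⋊ C₃` and `D₈`.  This gives a skew brace with multiplicative group `T` and additive group `P`,
and then one with multiplicative group `G` and additive group `S × P`, which is perfect.
-/

set_option autoImplicit false

namespace Pool.Agent.Results.MP_520f25_al.PerfectAlmostSimple

open Matrix

/-- A skew brace: a set with two group structures, the additive one not necessarily abelian,
with `a(b + c) = ab - a + ac`. -/
class SkewBrace (B : Type) extends AddGroup B, Group B where
  mul_add_eq : ∀ a b c : B, a * (b + c) = a * b - a + a * c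

/-- A group is almost simple if it has a non-abelian simple normal subgroup with trivial
centralizer. -/
def IsAlmostSimple (G : Type) [Group G] : Prop :=
  ∃ S : Subgroup G, S.Normal ∧ IsSimpleGroup S ∧ (∃ x y : S, x * y ≠ y * x) ∧
    Subgroup.centralizer (S : Set G) = ⊥

section braceOf

variable {G N : Type} [Group G] [Group N]

/-- The skew brace with multiplicative group `G` given by a bijective crossed homomorphism
`e : G → N` to a group `N` (the additive group) on which `G` acts. -/
@[instance_reducible]
noncomputable def braceOf (e : G ≃ N) (θ : G → N → N)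
    (hθ : ∀ g u v, θ g (u * v) = θ g u * θ g v) (he : ∀ g h, e (g * h) = e g * θ g (e h)) :
    SkewBrace G where
  toAddGroup := (e.trans Additive.ofMul).addGroup
  toGroup := inferInstance
  mul_add_eq a b c := by
    apply e.injective
    change e (a * e.symm (e b * e c)) =
      e (e.symm (e (e.symm (e (a * b) / e a)) * e (a * c)))
    rw [he, Equiv.apply_symm_apply, Equiv.apply_symm_apply, Equiv.apply_symm_apply, he, he, hθ]
    simp only [div_eq_mul_inv, mul_assoc, inv_mul_cancel_left]

theorem perfect_braceOf (e : G ≃ N) (θ : G → N → N)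
    (hθ : ∀ g u v, θ g (u * v) = θ g u * θ g v) (he : ∀ g h, e (g * h) = e g * θ g (e h))
    (hN : Group.IsPerfect N) :
    letI : SkewBrace G := braceOf e θ hθ he
    commutator (Multiplicative G) = ⊤ := by
  let : SkewBrace G := braceOf e θ hθ he
  let f : N →* Multiplicative G :=
    { toFun := fun u => Multiplicative.ofAdd (e.symm u)
      map_one' := rfl
      map_mul' := fun u v => by
        change Multiplicative.ofAdd (e.symm (u * v)) =
          Multiplicative.ofAdd (e.symm (e (e.symm u) * e (e.symm v)))
        rw [Equiv.apply_symm_apply, Equiv.apply_symm_apply] }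
  have hf : Function.Surjective f := fun g =>
    ⟨e (Multiplicative.toAdd g), by
      change Multiplicative.ofAdd (e.symm (e (Multiplicative.toAdd g))) = g
      rw [Equiv.symm_apply_apply]; rfl⟩
  exact (Group.IsPerfect.ofSurjective hf).commutator_eq_top

end braceOf

section powHom

variable {R : Type*} [Group R]

/-- The homomorphism from the cyclic group of order `n` sending the generator to `g`. -/
def powHom (n : ℕ) [NeZero n] (g : R) (h : g ^ n = 1) : Multiplicative (ZMod n) →* R where
  toFun i := g ^ (Multiplicative.toAdd i).val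
  map_one' := by simp
  map_mul' i j := by
    rw [← pow_add, toAdd_mul, ZMod.val_add, ← pow_eq_pow_mod _ h]

theorem powHom_apply (n : ℕ) [NeZero n] (g : R) (h : g ^ n = 1) (i : Multiplicative (ZMod n)) :
    powHom n g h i = g ^ (Multiplicative.toAdd i).val := rfl

end powHom

/-- Multiplication by `11` on `ℤ/28`. -/
def twist : MulAut (Multiplicative (ZMod 28)) where
  toFun i := Multiplicative.ofAdd (11 * Multiplicative.toAdd i)
  invFun i := Multiplicative.ofAdd (23 * Multiplicative.toAdd i)
  left_inv i := by
    change Multiplicative.ofAdd (23 * (11 * Multiplicative.toAdd i)) = i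
    rw [← mul_assoc]
    have : (23 * 11 : ZMod 28) = 1 := by decide
    rw [this, one_mul]; rfl
  right_inv i := by
    change Multiplicative.ofAdd (11 * (23 * Multiplicative.toAdd i)) = i
    rw [← mul_assoc]
    have : (11 * 23 : ZMod 28) = 1 := by decide
    rw [this, one_mul]; rfl
  map_mul' i j := by
    change Multiplicative.ofAdd (11 * (Multiplicative.toAdd i + Multiplicative.toAdd j)) = _
    rw [mul_add]; rfl

theorem twist_pow (k : ℕ) (i : Multiplicative (ZMod 28)) :
    (twist ^ k) i = Multiplicative.ofAdd (11 ^ k * Multiplicative.toAdd i) := by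
  induction k with
  | zero => simp
  | succ k ih =>
    rw [pow_succ', MulAut.mul_apply, ih]
    change Multiplicative.ofAdd (11 * (11 ^ k * Multiplicative.toAdd i)) = _
    rw [← mul_assoc, ← pow_succ']

theorem twist_six : twist ^ 6 = 1 := by
  ext i
  rw [twist_pow]
  have : (11 ^ 6 : ZMod 28) = 1 := by decide
  rw [this, one_mul]; rfl

/-- The group `T = C₂₈ ⋊ C₆`, where the generator of `C₆` acts as the 11-th power map. -/
abbrev T : Type := Multiplicative (ZMod 28) ⋊[powHom 6 twist twist_six] Multiplicative (ZMod 6)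

section liftT

variable {R : Type*} [Group R]

theorem powHom_twist (z s : R) (hz : z ^ 28 = 1) (hzs : s * z * s⁻¹ = z ^ 11) (k : ℕ)
    (i : Multiplicative (ZMod 28)) :
    powHom 28 z hz ((twist ^ k) i) = s ^ k * powHom 28 z hz i * (s ^ k)⁻¹ := by
  induction k generalizing i with
  | zero => simp
  | succ k ih =>
    rw [pow_succ, MulAut.mul_apply, ih, pow_succ]
    have : powHom 28 z hz (twist i) = s * powHom 28 z hz i * s⁻¹ := by
      rw [powHom_apply, powHom_apply]
      change z ^ (11 * Multiplicative.toAdd i).val = _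
      rw [ZMod.val_mul, ← pow_eq_pow_mod _ hz]
      have : (11 : ZMod 28).val = 11 := rfl
      rw [this, pow_mul, ← hzs, conj_pow]
    rw [this]
    group

/-- Homomorphisms out of `T`. -/
def liftT (z s : R) (hz : z ^ 28 = 1) (hs : s ^ 6 = 1) (hzs : s * z * s⁻¹ = z ^ 11) : T →* R :=
  SemidirectProduct.lift (powHom 28 z hz) (powHom 6 s hs) (by
    intro g
    ext i
    exact powHom_twist z s hz hzs _ i)

theorem liftT_apply (z s : R) (hz : z ^ 28 = 1) (hs : s ^ 6 = 1) (hzs : s * z * s⁻¹ = z ^ 11)
    (t : T) : liftT z s hz hs hzs t =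
      z ^ (Multiplicative.toAdd t.left).val * s ^ (Multiplicative.toAdd t.right).val := rfl

end liftT

section smallGroup

/-- The simple group of order 168. -/
abbrev P : Type := SpecialLinearGroup (Fin 3) (ZMod 2)

/-- An element of order 7. -/
def gc : P := ⟨!![0, 0, 1; 1, 0, 1; 0, 1, 0], by decide⟩

/-- An element of order 3 normalising `⟨gc⟩`. -/
def gr : P := ⟨!![1, 0, 0; 0, 1, 1; 0, 1, 0], by decide⟩

/-- An element of order 4. -/
def gd : P := ⟨!![1, 1, 0; 0, 1, 1; 0, 0, 1], by decide⟩

/-- An involution inverting `gd`. -/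
def gs : P := ⟨!![1, 0, 0; 0, 1, 1; 0, 0, 1], by decide⟩

theorem gc_pow : gc ^ 7 = 1 := by decide
theorem gr_pow : gr ^ 3 = 1 := by decide
theorem gd_pow : gd ^ 4 = 1 := by decide
theorem gs_pow : gs ^ 2 = 1 := by decide
theorem gr_gc : gr * gc * gr⁻¹ = gc ^ 4 := by decide
theorem gs_gd : gs * gd * gs⁻¹ = gd ^ 3 := by decide

theorem cr_eq_one : ∀ i : Fin 7, ∀ j : Fin 3, gc ^ i.val * gr ^ j.val = 1 → i = 0 ∧ j = 0 := by
  decide

theorem ds_eq_one : ∀ i : Fin 4, ∀ j : Fin 2, gd ^ i.val * gs ^ j.val = 1 → i = 0 ∧ j = 0 := by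
  decide

/-- The homomorphism from `T` onto the subgroup of order 21 of `P`. -/
def α : T →* P :=
  liftT gc gr
    (by rw [show 28 = 7 * 4 from rfl, pow_mul, gc_pow, one_pow])
    (by rw [show 6 = 3 * 2 from rfl, pow_mul, gr_pow, one_pow])
    (by rw [gr_gc, pow_eq_pow_mod 11 gc_pow])

/-- The homomorphism from `T` onto the subgroup of order 8 of `P`. -/
def β : T →* P :=
  liftT gd gs
    (by rw [show 28 = 4 * 7 from rfl, pow_mul, gd_pow, one_pow])
    (by rw [show 6 = 2 * 3 from rfl, pow_mul, gs_pow, one_pow])
    (by rw [gs_gd, pow_eq_pow_mod 11 gd_pow])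

theorem α_apply (t : T) : α t =
    gc ^ (Multiplicative.toAdd t.left).val * gr ^ (Multiplicative.toAdd t.right).val := rfl

theorem β_apply (t : T) : β t =
    gd ^ (Multiplicative.toAdd t.left).val * gs ^ (Multiplicative.toAdd t.right).val := rfl

theorem toAdd_right_pow (t : T) (n : ℕ) :
    Multiplicative.toAdd (t ^ n).right = (n : ZMod 6) * Multiplicative.toAdd t.right := by
  have : (t ^ n).right = t.right ^ n := by
    change SemidirectProduct.rightHom (t ^ n) = (SemidirectProduct.rightHom t) ^ n
    rw [map_pow]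
  rw [this, toAdd_pow, nsmul_eq_mul]

theorem α_pow (t : T) : (α t) ^ 21 = 1 := by
  rw [show 21 = 3 * 7 from rfl, pow_mul, ← map_pow, α_apply, toAdd_right_pow]
  have h : ∀ j : ZMod 6, (((3 : ℕ) : ZMod 6) * j).val % 3 = 0 := by decide
  rw [pow_eq_pow_mod _ gr_pow, h, pow_zero, mul_one, ← pow_mul, mul_comm, pow_mul, gc_pow, one_pow]

theorem β_pow (t : T) : (β t) ^ 8 = 1 := by
  rw [show 8 = 2 * 4 from rfl, pow_mul, ← map_pow, β_apply, toAdd_right_pow]
  have h : ∀ j : ZMod 6, (((2 : ℕ) : ZMod 6) * j).val % 2 = 0 := by decide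
  rw [pow_eq_pow_mod _ gs_pow, h, pow_zero, mul_one, ← pow_mul, mul_comm, pow_mul, gd_pow, one_pow]

theorem eq_one_of_αβ (t : T) (ha : α t = 1) (hb : β t = 1) : t = 1 := by
  rw [α_apply, pow_eq_pow_mod _ gc_pow, pow_eq_pow_mod (Multiplicative.toAdd t.right).val gr_pow]
    at ha
  rw [β_apply, pow_eq_pow_mod _ gd_pow, pow_eq_pow_mod (Multiplicative.toAdd t.right).val gs_pow]
    at hb
  have h1 := cr_eq_one ⟨_ % 7, Nat.mod_lt _ (by norm_num)⟩ ⟨_ % 3, Nat.mod_lt _ (by norm_num)⟩ ha
  have h2 := ds_eq_one ⟨_ % 4, Nat.mod_lt _ (by norm_num)⟩ ⟨_ % 2, Nat.mod_lt _ (by norm_num)⟩ hb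
  simp only [Fin.mk_eq_zero] at h1 h2
  have h3 : (Multiplicative.toAdd t.left).val < 28 := ZMod.val_lt _
  have h4 : (Multiplicative.toAdd t.right).val < 6 := ZMod.val_lt _
  have h5 : (Multiplicative.toAdd t.left).val = 0 := by omega
  have h6 : (Multiplicative.toAdd t.right).val = 0 := by omega
  rw [ZMod.val_eq_zero] at h5 h6
  ext
  · exact h5
  · exact h6

/-- The bijection `t ↦ α(t) β(t)⁻¹` from `T` to `P`. -/
def π (t : T) : P := α t * (β t)⁻¹

theorem π_mul (t u : T) : π (t * u) = π t * (β t * π u * (β t)⁻¹) := by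
  simp only [π, map_mul, _root_.mul_inv_rev]
  group

theorem π_injective : Function.Injective π := by
  intro t u h
  have h1 : α (u⁻¹ * t) = β (u⁻¹ * t) := by
    unfold π at h
    rw [map_mul, map_mul, map_inv, map_inv]
    have : (α u)⁻¹ * (α t * (β t)⁻¹) * β t = (α u)⁻¹ * (α u * (β u)⁻¹) * β t := by rw [h]
    simpa [mul_assoc] using this
  have h2 := α_pow (u⁻¹ * t)
  have h3 := β_pow (u⁻¹ * t)
  rw [← h1] at h3
  have h4 : α (u⁻¹ * t) = 1 := by
    have h5 : (α (u⁻¹ * t)) ^ 63 = 1 := by
      rw [show 63 = 21 * 3 from rfl, pow_mul, h2, one_pow]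
    have h6 : (α (u⁻¹ * t)) ^ 64 = 1 := by
      rw [show 64 = 8 * 8 from rfl, pow_mul, h3, one_pow]
    rw [pow_succ, h5, one_mul] at h6
    exact h6
  have h5 := eq_one_of_αβ _ h4 (h1 ▸ h4)
  have h6 : u * (u⁻¹ * t) = u := by rw [h5, mul_one]
  simpa using h6

theorem card_P : Nat.card P = 168 := by
  have h1 := Matrix.card_GL_field (𝔽 := ZMod 2) 3
  have h2 : Nat.card P = Nat.card (GL (Fin 3) (ZMod 2)) := by
    apply Nat.card_congr
    apply Equiv.ofBijective (SpecialLinearGroup.toGL : P →* GL (Fin 3) (ZMod 2))
    constructor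
    · intro a b hab
      apply Subtype.ext
      have := congrArg (fun g : GL (Fin 3) (ZMod 2) => (g : Matrix (Fin 3) (Fin 3) (ZMod 2))) hab
      simpa using this
    · intro g
      have hdet : (g : Matrix (Fin 3) (Fin 3) (ZMod 2)).det = 1 := by
        have : IsUnit (g : Matrix (Fin 3) (Fin 3) (ZMod 2)).det :=
          (Matrix.isUnit_iff_isUnit_det _).1 g.isUnit
        have h : ∀ x : ZMod 2, x ≠ 0 → x = 1 := by decide
        exact h _ this.ne_zero
      exact ⟨⟨g, hdet⟩, Units.ext rfl⟩
  rw [h2, h1]
  simp [Fin.prod_univ_succ, ZMod.card]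

theorem card_T : Nat.card T = 168 := by
  rw [Nat.card_congr SemidirectProduct.equivProd, Nat.card_prod]
  simp

instance : Finite T := Finite.of_equiv _ SemidirectProduct.equivProd.symm

theorem π_bijective : Function.Bijective π := by
  have : Finite T := inferInstance
  have := Fintype.ofFinite T
  have := Fintype.ofFinite P
  rw [Fintype.bijective_iff_injective_and_card]
  refine ⟨π_injective, ?_⟩
  rw [← Nat.card_eq_fintype_card, ← Nat.card_eq_fintype_card, card_P, card_T]

end smallGroup

section field

instance fact11 : Fact (Nat.Prime 11) := ⟨by norm_num⟩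

/-- The field with `11 ^ 6` elements. -/
abbrev F : Type := GaloisField 11 6

noncomputable instance : Fintype F := Fintype.ofFinite F

theorem card_F : Nat.card F = 11 ^ 6 := GaloisField.card 11 6 (by norm_num)

theorem card_units : Nat.card Fˣ = 1771560 := by
  have h := Nat.card_units F
  rw [card_F] at h
  rw [h]
  norm_num

theorem exists_omega : ∃ w : Fˣ, orderOf w = 28 := by
  obtain ⟨g, hg⟩ := IsCyclic.exists_generator (α := Fˣ)
  have h1 : orderOf g = 1771560 := by
    rw [orderOf_eq_card_of_forall_mem_zpowers hg, card_units]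
  refine ⟨g ^ 63270, ?_⟩
  rw [orderOf_pow, h1]
  norm_num

/-- An element of order 28. -/
noncomputable def ω : Fˣ := exists_omega.choose

theorem orderOf_ω : orderOf ω = 28 := exists_omega.choose_spec

theorem ω_pow : ω ^ 28 = 1 := by
  rw [← orderOf_ω, pow_orderOf_eq_one]

/-- The Frobenius automorphism. -/
noncomputable def frob : F ≃+* F := frobeniusEquiv F 11

theorem frob_pow_apply (k : ℕ) (x : F) : (frob ^ k) x = x ^ 11 ^ k := by
  induction k generalizing x with
  | zero => simp
  | succ k ih =>
    rw [pow_succ, RingAut.mul_apply, ih]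
    change (x ^ 11) ^ 11 ^ k = _
    rw [← pow_mul, ← pow_succ']

theorem frob_six : frob ^ 6 = 1 := by
  ext x
  rw [frob_pow_apply]
  have := FiniteField.pow_card x
  rw [← Nat.card_eq_fintype_card, card_F] at this
  rw [this]; rfl

theorem frob_pow_ne (k : ℕ) (hk : k < 6) (h : ∀ x : F, (frob ^ k) x = x) : k = 0 := by
  obtain ⟨g, hg⟩ := IsCyclic.exists_generator (α := Fˣ)
  have h1 : orderOf g = 1771560 := by
    rw [orderOf_eq_card_of_forall_mem_zpowers hg, card_units]
  have h2 : g ^ 11 ^ k = g ^ 1 := by
    apply Units.ext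
    push_cast
    rw [← frob_pow_apply, h, pow_one]
  rw [pow_inj_mod, h1] at h2
  interval_cases k
  · rfl
  all_goals norm_num at h2

theorem ω_pow_eq (i : ℕ) (hi : i < 28) (μ : Fˣ) (h : ω ^ i = μ ^ 56) : i = 0 := by
  have h1 : (ω ^ i) ^ 31635 = 1 := by
    rw [h, ← pow_mul]
    have := pow_card_eq_one' (x := μ)
    rw [card_units] at this
    exact this
  rw [← pow_mul] at h1
  have h2 := orderOf_dvd_of_pow_eq_one h1
  rw [orderOf_ω] at h2
  omega

end field

section autos

variable {ι : Type} [Fintype ι] [DecidableEq ι] {K : Type} [Field K]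

/-- Conjugation by an invertible matrix, as an automorphism of `SL`. -/
def conjSL : GL ι K →* MulAut (SpecialLinearGroup ι K) where
  toFun g :=
    { toFun := fun M => ⟨(g : Matrix ι ι K) * M * (g⁻¹ : GL ι K), by
        rw [Matrix.det_mul, Matrix.det_mul, M.2, mul_one, ← Matrix.det_mul, Units.mul_inv,
          Matrix.det_one]⟩
      invFun := fun M => ⟨((g⁻¹ : GL ι K) : Matrix ι ι K) * M * g, by
        rw [Matrix.det_mul, Matrix.det_mul, M.2, mul_one, ← Matrix.det_mul, Units.inv_mul,
          Matrix.det_one]⟩
      left_inv := fun M => by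
        apply Subtype.ext
        change ((g⁻¹ : GL ι K) : Matrix ι ι K) * (g * M * (g⁻¹ : GL ι K)) * g = M
        have h := Units.inv_mul g
        calc _ = (((g⁻¹ : GL ι K) : Matrix ι ι K) * g) * M * (((g⁻¹ : GL ι K) : Matrix ι ι K) * g)
              := by simp only [mul_assoc]
          _ = _ := by rw [h, one_mul, mul_one]
      right_inv := fun M => by
        apply Subtype.ext
        change (g : Matrix ι ι K) * ((g⁻¹ : GL ι K) * M * g) * (g⁻¹ : GL ι K) = M
        have h := Units.mul_inv g
        calc _ = ((g : Matrix ι ι K) * (g⁻¹ : GL ι K)) * M * ((g : Matrix ι ι K) * (g⁻¹ : GL ι K))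
              := by simp only [mul_assoc]
          _ = _ := by rw [h, one_mul, mul_one]
      map_mul' := fun M N => by
        apply Subtype.ext
        change (g : Matrix ι ι K) * (M * N) * (g⁻¹ : GL ι K) =
          (g * M * (g⁻¹ : GL ι K)) * (g * N * (g⁻¹ : GL ι K))
        have h := Units.inv_mul g
        calc _ = (g : Matrix ι ι K) * M * 1 * N * (g⁻¹ : GL ι K) := by
                simp only [mul_assoc, one_mul]
          _ = _ := by rw [← h]; simp only [mul_assoc] }
  map_one' := by
    ext M : 1
    apply Subtype.ext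
    change ((1 : GL ι K) : Matrix ι ι K) * M * ((1 : GL ι K)⁻¹ : GL ι K) = M
    simp
  map_mul' g h := by
    ext M : 1
    apply Subtype.ext
    change ((g * h : GL ι K) : Matrix ι ι K) * M * ((g * h)⁻¹ : GL ι K) =
      g * (h * M * (h⁻¹ : GL ι K)) * (g⁻¹ : GL ι K)
    rw [_root_.mul_inv_rev, Units.val_mul, Units.val_mul]
    simp only [mul_assoc]

theorem conjSL_coe (g : GL ι K) (M : SpecialLinearGroup ι K) :
    ((conjSL g M : SpecialLinearGroup ι K) : Matrix ι ι K) = g * M * (g⁻¹ : GL ι K) := rfl

/-- A field automorphism applied to the entries, as an automorphism of `SL`. -/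
def mapSL : (K ≃+* K) →* MulAut (SpecialLinearGroup ι K) where
  toFun τ :=
    { toFun := fun M => SpecialLinearGroup.map (τ : K →+* K) M
      invFun := fun M => SpecialLinearGroup.map (τ.symm : K →+* K) M
      left_inv := fun M => by
        apply Subtype.ext
        ext i j
        exact τ.symm_apply_apply _
      right_inv := fun M => by
        apply Subtype.ext
        ext i j
        exact τ.apply_symm_apply _
      map_mul' := fun M N => map_mul _ M N }
  map_one' := by
    ext M : 1
    apply Subtype.ext
    rfl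
  map_mul' σ τ := by
    ext M : 1
    apply Subtype.ext
    rfl

theorem mapSL_coe (τ : K ≃+* K) (M : SpecialLinearGroup ι K) :
    ((mapSL τ M : SpecialLinearGroup ι K) : Matrix ι ι K) = (M : Matrix ι ι K).map τ := rfl

theorem diag_mul (i₀ : ι) (x y : K) :
    diagonal (Pi.mulSingle i₀ x) * diagonal (Pi.mulSingle i₀ y) =
      diagonal (Pi.mulSingle i₀ (x * y) : ι → K) := by
  rw [Pi.mulSingle_mul, diagonal_mul_diagonal]
  rfl

/-- The diagonal matrix with entry `u` in position `i₀` and `1` elsewhere. -/
def dg (i₀ : ι) : Kˣ →* GL ι K where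
  toFun u :=
    { val := diagonal (Pi.mulSingle i₀ (u : K))
      inv := diagonal (Pi.mulSingle i₀ ((u⁻¹ : Kˣ) : K))
      val_inv := by
        rw [diag_mul, Units.mul_inv, Pi.mulSingle_one]
        exact diagonal_one
      inv_val := by
        rw [diag_mul, Units.inv_mul, Pi.mulSingle_one]
        exact diagonal_one }
  map_one' := by
    apply Units.ext
    simp
  map_mul' u v := by
    apply Units.ext
    change diagonal (Pi.mulSingle i₀ ((u * v : Kˣ) : K)) =
      diagonal (Pi.mulSingle i₀ (u : K)) * diagonal (Pi.mulSingle i₀ (v : K))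
    rw [diag_mul, Units.val_mul]

theorem det_dg (i₀ : ι) (u : Kˣ) : (dg i₀ u : Matrix ι ι K).det = u := by
  change (diagonal (Pi.mulSingle i₀ (u : K))).det = u
  rw [det_diagonal]
  simp [Finset.prod_pi_mulSingle']

theorem mapSL_conjSL (i₀ : ι) (τ : K ≃+* K) (u : Kˣ) :
    mapSL τ * conjSL (dg i₀ u) * (mapSL τ)⁻¹ =
      conjSL (dg i₀ (Units.map (τ : K →* K) u)) := by
  rw [mul_inv_eq_iff_eq_mul]
  ext M : 1
  apply Subtype.ext
  have hd : ∀ v : Kˣ, (dg i₀ v : Matrix ι ι K).map τ = dg i₀ (Units.map (τ : K →* K) v) := by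
    intro v
    change (diagonal (Pi.mulSingle i₀ (v : K))).map τ = diagonal (Pi.mulSingle i₀ (τ (v : K)))
    ext i j
    by_cases hij : i = j
    · subst hij
      simp only [map_apply, diagonal_apply_eq, Pi.mulSingle_apply]
      split_ifs <;> simp
    · simp [diagonal_apply_ne _ hij]
  rw [MulAut.mul_apply, MulAut.mul_apply, mapSL_coe, conjSL_coe, conjSL_coe, mapSL_coe,
    Matrix.map_mul, Matrix.map_mul, hd, ← map_inv, ← map_inv, hd, map_inv]

/-- If the automorphism given by `τ` followed by conjugation by `D` becomes inner on `PSL`, then `τ` is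
trivial and `D` is, up to a scalar, a matrix of determinant one. -/
theorem inner_analysis [Nontrivial ι] (hι : (Fintype.card ι : K) = 1) (D : GL ι K) (τ : K ≃+* K)
    (N : SpecialLinearGroup ι K)
    (h : ∀ M : SpecialLinearGroup ι K,
      N * conjSL D (mapSL τ M) * N⁻¹ * M⁻¹ ∈ Subgroup.center (SpecialLinearGroup ι K)) :
    (∀ x, τ x = x) ∧ ∃ μ : K, (D : Matrix ι ι K).det = μ ^ Fintype.card ι := by
  set Q : GL ι K := (N : GL ι K) * D with hQ
  have key : ∀ i j : ι, i ≠ j → ∀ a : K,
      (Q : Matrix ι ι K) * single i j (τ a) = single i j a * Q := by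
    intro i j hij a
    have h1 := h (SpecialLinearGroup.transvection hij a)
    rw [Matrix.SpecialLinearGroup.mem_center_iff] at h1
    obtain ⟨r, _, hr⟩ := h1
    have h2 : (Q : Matrix ι ι K) * (1 + single i j (τ a)) =
        r • ((1 + single i j a) * (Q : Matrix ι ι K)) := by
      have e1 : N * conjSL D (mapSL τ (SpecialLinearGroup.transvection hij a)) =
          (N * conjSL D (mapSL τ (SpecialLinearGroup.transvection hij a)) * N⁻¹ *
            (SpecialLinearGroup.transvection hij a)⁻¹) *
            SpecialLinearGroup.transvection hij a * N := by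
        group
      have e2 := congrArg (fun A : SpecialLinearGroup ι K => (A : Matrix ι ι K) * D) e1
      simp only [Matrix.SpecialLinearGroup.coe_mul] at e2
      simp only [Matrix.SpecialLinearGroup.coe_mul] at hr
      rw [← hr, conjSL_coe, mapSL_coe, SpecialLinearGroup.transvection_coe] at e2
      have e3 : ((1 : Matrix ι ι K) + single i j a).map τ = 1 + single i j (τ a) := by
        ext k l
        simp only [map_apply, Matrix.add_apply, Matrix.one_apply, Matrix.single_apply, map_add]
        congr 1
        · split_ifs <;> simp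
        · split_ifs <;> simp
      rw [e3] at e2
      have e4 : ((Q : GL ι K) : Matrix ι ι K) = N * D := rfl
      rw [e4]
      calc (N : Matrix ι ι K) * D * (1 + single i j (τ a))
          = N * (D * (1 + single i j (τ a)) * (D⁻¹ : GL ι K)) * D := by
            have := Units.inv_mul D
            rw [mul_assoc, mul_assoc, mul_assoc, mul_assoc, this, mul_one]
        _ = _ := e2
        _ = _ := by
            rw [Matrix.scalar_apply, mul_assoc, mul_assoc, ← smul_eq_diagonal_mul]
    have h3 : r = 1 := by
      have h4 := congrArg (fun A => Matrix.trace (A * ((Q⁻¹ : GL ι K) : Matrix ι ι K))) h2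
      rw [Matrix.trace_mul_comm, ← mul_assoc, Units.inv_mul, one_mul, smul_mul_assoc, mul_assoc,
        Units.mul_inv, mul_one, Matrix.trace_smul, Matrix.trace_add, Matrix.trace_add,
        Matrix.trace_one, hι, trace_single_eq_of_ne _ _ _ hij, trace_single_eq_of_ne _ _ _ hij,
        add_zero, smul_eq_mul, mul_one] at h4
      exact h4.symm
    rw [h3, one_smul, mul_add, add_mul, mul_one, one_mul] at h2
    exact add_left_cancel h2
  have hQs : (Q : Matrix ι ι K) ∈ Set.range (Matrix.scalar ι) := by
    apply Matrix.mem_range_scalar_of_commute_single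
    intro i j hij
    have := key i j hij 1
    rw [map_one] at this
    exact this.symm
  obtain ⟨μ, hμ⟩ := hQs
  have hdet : (Q : Matrix ι ι K).det = μ ^ Fintype.card ι := by
    rw [← hμ]
    simp
  have hμ0 : μ ≠ 0 := by
    rintro rfl
    have h1 : IsUnit (Q : Matrix ι ι K).det := (Matrix.isUnit_iff_isUnit_det _).1 Q.isUnit
    rw [hdet, zero_pow Fintype.card_ne_zero] at h1
    exact not_isUnit_zero h1
  refine ⟨?_, μ, ?_⟩
  · intro x
    obtain ⟨i, j, hij⟩ := exists_pair_ne ι
    have h1 := congrArg (fun A : Matrix ι ι K => A i j) (key i j hij x)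
    simp only [← hμ] at h1
    rw [Matrix.scalar_apply, diagonal_mul, mul_diagonal, single_apply_same,
      single_apply_same, mul_comm] at h1
    exact mul_right_cancel₀ hμ0 h1
  · rw [← hdet]
    have e4 : ((Q : GL ι K) : Matrix ι ι K) = N * D := rfl
    rw [e4, Matrix.det_mul, N.2, one_mul]

end autos

section main

/-- An automorphism of a group induces one of its quotient by the centre. -/
def quotAut (H : Type) [Group H] : MulAut H →* MulAut (H ⧸ Subgroup.center H) where
  toFun f := QuotientGroup.congr (Subgroup.center H) (Subgroup.center H) f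
    (Subgroup.characteristic_iff_map_eq.1 inferInstance f)
  map_one' := by
    ext x
    induction x using QuotientGroup.induction_on with
    | H z => rfl
  map_mul' f g := by
    ext x
    induction x using QuotientGroup.induction_on with
    | H z => rfl

/-- The group `SL(56, F)`. -/
abbrev SLn : Type := Matrix.SpecialLinearGroup (Fin 56) F

/-- The simple group `S = PSL(56, F)`. -/
abbrev S : Type := Matrix.ProjectiveSpecialLinearGroup (Fin 56) F

/-- The action of `T` on `SL(56, F)`. -/
noncomputable def actSL : T →* MulAut SLn :=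
  liftT (conjSL (dg 0 ω)) (mapSL frob)
    (by rw [← map_pow, ← map_pow, ω_pow, map_one, map_one])
    (by rw [← map_pow, frob_six, map_one])
    (by
      rw [mapSL_conjSL, ← map_pow, ← map_pow]
      have h : Units.map (frob : F →* F) ω = ω ^ 11 := Units.ext rfl
      rw [h])

/-- The action of `T` on `S`. -/
noncomputable def act : T →* MulAut S := (quotAut SLn).comp actSL

instance simple_S : IsSimpleGroup S := Pool.Agent.H463R3.PSLn.isSimpleGroup_PSL (by simp)

instance perfect_S : Group.IsPerfect S :=
  ⟨Pool.Agent.H463R3.PSLn.PSL_commutator_eq_top (by simp)⟩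

instance perfect_P : Group.IsPerfect P :=
  ⟨Pool.Agent.H463R3.PSLn.SL_commutator_eq_top (by simp)⟩

theorem nonabelian_S : ∃ x y : S, x * y ≠ y * x := by
  by_contra hcon
  push Not at hcon
  exact Group.IsPerfect.not_isMulCommutative S ⟨⟨hcon⟩⟩

theorem center_S (s : S) (h : ∀ x : S, s * x = x * s) : s = 1 := by
  have h1 : s ∈ Subgroup.center S := Subgroup.mem_center_iff.2 (fun x => (h x).symm)
  rcases (inferInstance : (Subgroup.center S).Normal).eq_bot_or_eq_top with h2 | h2
  · rw [h2] at h1
    exact Subgroup.mem_bot.1 h1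
  · exfalso
    obtain ⟨x, y, hxy⟩ := nonabelian_S
    have h3 : y ∈ Subgroup.center S := by rw [h2]; trivial
    exact hxy (Subgroup.mem_center_iff.1 h3 x)

/-- Only the identity of `T` acts on `S` as an inner automorphism. -/
theorem act_inner (t : T) (s : S) (h : ∀ x : S, s * act t x * s⁻¹ = x) : t = 1 := by
  obtain ⟨N, rfl⟩ := QuotientGroup.mk_surjective s
  have h1 : ∀ M : SLn, N * actSL t M * N⁻¹ * M⁻¹ ∈ Subgroup.center SLn := by
    intro M
    rw [← QuotientGroup.eq_one_iff]
    have h2 := h (QuotientGroup.mk M)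
    have h3 : act t (QuotientGroup.mk M) = QuotientGroup.mk (actSL t M) := rfl
    rw [h3] at h2
    rw [QuotientGroup.mk_mul, QuotientGroup.mk_inv, QuotientGroup.mk_mul, QuotientGroup.mk_mul,
      QuotientGroup.mk_inv, h2, mul_inv_cancel]
  have h2 : ∀ M : SLn, actSL t M =
      conjSL (dg 0 (ω ^ (Multiplicative.toAdd t.left).val))
        (mapSL (frob ^ (Multiplicative.toAdd t.right).val) M) := by
    intro M
    rw [map_pow, map_pow, map_pow]
    rfl
  have hcard : ((Fintype.card (Fin 56) : ℕ) : F) = 1 := by
    rw [Fintype.card_fin]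
    have h3 : ((56 : ℕ) : F) = ((1 : ℕ) : F) :=
      (CharP.natCast_eq_natCast F 11).2 (by decide)
    rw [h3, Nat.cast_one]
  obtain ⟨h3, μ, h4⟩ := inner_analysis hcard _ _ N (fun M => by rw [← h2]; exact h1 M)
  have h5 := frob_pow_ne _ (ZMod.val_lt _) h3
  rw [det_dg, Fintype.card_fin] at h4
  have hμ : μ ≠ 0 := by
    rintro rfl
    rw [zero_pow (by norm_num)] at h4
    exact Units.ne_zero _ h4
  have h6 := ω_pow_eq _ (ZMod.val_lt (Multiplicative.toAdd t.left)) (Units.mk0 μ hμ) (by
    apply Units.ext
    rw [h4, Units.val_pow_eq_pow_val, Units.val_mk0])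
  rw [ZMod.val_eq_zero] at h5 h6
  ext
  · exact h6
  · exact h5

/-- The multiplicative group `G = S ⋊ T`. -/
abbrev G : Type := S ⋊[act] T

theorem almostSimple_G : IsAlmostSimple G := by
  refine ⟨(SemidirectProduct.inl : S →* G).range, ?_, ?_, ?_, ?_⟩
  · rw [SemidirectProduct.range_inl_eq_ker_rightHom]
    infer_instance
  · exact (MonoidHom.ofInjective (SemidirectProduct.inl_injective (φ := act))).symm.isSimpleGroup
  · obtain ⟨x, y, hxy⟩ := nonabelian_S
    refine ⟨⟨SemidirectProduct.inl x, x, rfl⟩, ⟨SemidirectProduct.inl y, y, rfl⟩, ?_⟩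
    intro h
    apply hxy
    have h1 := congrArg (fun z : (SemidirectProduct.inl : S →* G).range => (z : G)) h
    simp only [Subgroup.coe_mul, ← map_mul] at h1
    exact SemidirectProduct.inl_injective h1
  · rw [eq_bot_iff]
    intro g hg
    rw [Subgroup.mem_centralizer_iff] at hg
    have h1 : ∀ x : S, x * g.left = g.left * act g.right x := by
      intro x
      have h2 := congrArg SemidirectProduct.left (hg (SemidirectProduct.inl x) ⟨x, rfl⟩)
      simpa using h2
    have h2 : g.right = 1 := by
      apply act_inner g.right g.left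
      intro x
      rw [← h1, mul_assoc, mul_inv_cancel, mul_one]
    have h3 : g.left = 1 := by
      apply center_S
      intro x
      rw [h1, h2, map_one, MulAut.one_apply]
    rw [Subgroup.mem_bot]
    exact SemidirectProduct.ext h3 h2

theorem not_perfect_G : commutator G ≠ ⊤ := by
  intro h
  have h1 : Group.IsPerfect G := ⟨h⟩
  let f : G →* Multiplicative (ZMod 6) :=
    (SemidirectProduct.rightHom : T →* Multiplicative (ZMod 6)).comp SemidirectProduct.rightHom
  have hf : Function.Surjective f :=
    SemidirectProduct.rightHom_surjective.comp SemidirectProduct.rightHom_surjective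
  have h2 : Group.IsPerfect (Multiplicative (ZMod 6)) := Group.IsPerfect.ofSurjective hf
  have h4 : Fact (1 < 6) := ⟨by norm_num⟩
  have h3 : Nontrivial (Multiplicative (ZMod 6)) := inferInstance
  exact Group.IsPerfect.not_isMulCommutative (Multiplicative (ZMod 6)) ⟨⟨mul_comm⟩⟩

/-- The bijection from `G` to the additive group `S × P`. -/
noncomputable def e : G ≃ S × P :=
  SemidirectProduct.equivProd.trans (Equiv.prodCongr (Equiv.refl S) (Equiv.ofBijective π π_bijective))

theorem e_apply (g : G) : e g = (g.left, π g.right) := rfl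

/-- The action of `G` on `S × P`. -/
noncomputable def θ (g : G) (u : S × P) : S × P :=
  (act g.right u.1, β g.right * u.2 * (β g.right)⁻¹)

theorem θ_mul (g : G) (u v : S × P) : θ g (u * v) = θ g u * θ g v := by
  ext1
  · exact map_mul _ _ _
  · change β g.right * (u.2 * v.2) * (β g.right)⁻¹ =
      (β g.right * u.2 * (β g.right)⁻¹) * (β g.right * v.2 * (β g.right)⁻¹)
    group

theorem e_mul (g h : G) : e (g * h) = e g * θ g (e h) := by
  ext1
  · rfl
  · exact π_mul _ _

theorem perfect_SP : Group.IsPerfect (S × P) := by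
  constructor
  rw [commutator_def, ← Subgroup.top_prod_top, Subgroup.commutator_prod_prod,
    ← commutator_def, ← commutator_def, perfect_S.commutator_eq_top, perfect_P.commutator_eq_top]

instance finite_G : Finite G := Finite.of_equiv _ e.symm

/-- **There is a finite skew brace whose additive group is perfect and whose multiplicative group
is almost simple but not perfect.** -/
theorem result : ∃ (B : Type) (_ : SkewBrace B), Finite B ∧
    commutator (Multiplicative B) = ⊤ ∧ IsAlmostSimple B ∧ commutator B ≠ ⊤ :=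
  ⟨G, braceOf e θ θ_mul e_mul, finite_G, perfect_braceOf e θ θ_mul e_mul perfect_SP,
    almostSimple_G, not_perfect_G⟩

end main

end Pool.Agent.Results.MP_520f25_al.PerfectAlmostSimple
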